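import Pool.Agent.Work.MP_42242f_al.Main

set_option autoImplicit false

namespace Pool.Agent.Results.MP_42242f_al.PowerPdBound

open CategoryTheory

universe u

/-- For every `r ≥ 1` there is an explicit threshold for `q` above which the `r`-th power of every
square-free monomial ideal with `q` square-free monomial generators, over any field and in any
number of variables, has projective dimension at most `(q choose r) - 1`. -/
theorem result (r : ℕ) (_hr : 1 ≤ r) (q : ℕ) (hq : 16 * (r * (r + 1) ^ r) + 8 * r + 8 ≤ q)
    (k : Type u) [Field k] (n : ℕ) (m : Fin q → (Fin n →₀ ℕ)) (hm : ∀ i x, m i x ≤ 1) :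
    projectiveDimension (ModuleCat.of (MvPolynomial (Fin n) k)
      ((Ideal.span (Set.range fun i => MvPolynomial.monomial (m i) (1 : k))) ^ r :
        Ideal (MvPolynomial (Fin n) k))) ≤ ((q.choose r - 1 : ℕ) : WithBot ℕ∞) := by
  rw [projectiveDimension_le_iff]
  have h := Pool.Agent.Work.MP_42242f_al.main r q hq k n m hm
  have hpos : 0 < q.choose r := Nat.choose_pos (by omega)
  have hc : q.choose r - 1 + 1 = q.choose r := by omega
  change HasProjectiveDimensionLT _ (q.choose r - 1 + 1)
  rw [hc]
  exact h

end Pool.Agent.Results.MP_42242f_al.PowerPdBound
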